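import Mathlib
import Pool.Agent.P.MP_665821_co.Many

set_option autoImplicit false

open Pool.Agent.P.MP_665821_co

namespace Pool.Agent.Results.MP_665821_co.ManyColours

/-- For every number of colours `q ≥ 4` other than `5` and `8` some non-transitive coloured
tournament has shorter colour-avoiding paths than every colouring of the transitive one. -/
theorem result (q : ℕ) (h4 : 4 ≤ q) (h5 : q ≠ 5) (h8 : q ≠ 8) :
    ∃ (N : ℕ) (T : Fin N → Fin N → Prop) (c : Fin N → Fin N → Fin q),
      IsTournament T ∧ ¬IsTransitive T ∧ longest T c < f q N := by
  rcases h4.eq_or_lt with rfl | h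
  · exact ⟨10, Four.four_colours⟩
  · exact Many.many (by omega) h8

end Pool.Agent.Results.MP_665821_co.ManyColours
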